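import Pool.Agent.W337.MF.OrbB

/-!
# Similitudes with given characteristic polynomial: counting (helper337)
-/

open Polynomial Matrix

namespace Pool.Agent.W337.MF

open Pool.Agent.W458.MF Pool.Agent.W521.Frob

/-- A monic quadratic equation in a reduced algebra with `l ^ g` elements over the field with `l`
elements has at most `2 ^ g` solutions. -/
lemma count_quad {F E : Type*} [Field F] [Finite F] [CommRing E] [Finite E] [IsReduced E]
    [Algebra F E] {g : ℕ} (hc : Nat.card E = Nat.card F ^ g) (u w : E) :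
    {x : E | x ^ 2 + u * x + w = 0}.ncard ≤ 2 ^ g := by
  classical
  let e := IsArtinianRing.equivPi E
  haveI : Finite (MaximalSpectrum E) := inferInstance
  haveI : Fintype (MaximalSpectrum E) := Fintype.ofFinite _
  haveI : ∀ I : MaximalSpectrum E, Finite (E ⧸ I.asIdeal) := fun I =>
    Finite.of_surjective _ Ideal.Quotient.mk_surjective
  have hF2 : 2 ≤ Nat.card F := Finite.one_lt_card
  have hcard : Nat.card (MaximalSpectrum E) ≤ g := by
    have h1 : Nat.card E = ∏ I : MaximalSpectrum E, Nat.card (E ⧸ I.asIdeal) := by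
      rw [Nat.card_congr e.toEquiv, Nat.card_pi]
    have h2 : ∀ I : MaximalSpectrum E, Nat.card F ≤ Nat.card (E ⧸ I.asIdeal) := by
      intro I
      haveI := I.isMaximal.isPrime
      haveI : Nontrivial (E ⧸ I.asIdeal) := Ideal.Quotient.nontrivial_iff.2 I.isMaximal.ne_top
      exact Nat.card_le_card_of_injective _ (algebraMap F (E ⧸ I.asIdeal)).injective
    have h3 : Nat.card F ^ Nat.card (MaximalSpectrum E) ≤ Nat.card F ^ g := by
      rw [← hc, h1]
      calc Nat.card F ^ Nat.card (MaximalSpectrum E)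
          = ∏ _I : MaximalSpectrum E, Nat.card F := by
            rw [Finset.prod_const, Finset.card_univ,
              Nat.card_eq_fintype_card (α := MaximalSpectrum E)]
        _ ≤ _ := Finset.prod_le_prod' fun I _ => h2 I
    exact (Nat.pow_le_pow_iff_right (by omega)).1 h3
  have hroots : ∀ I : MaximalSpectrum E, {z : E ⧸ I.asIdeal | z ^ 2 +
      (Ideal.Quotient.mk I.asIdeal u) * z + Ideal.Quotient.mk I.asIdeal w = 0}.ncard ≤ 2 := by
    intro I
    haveI := I.isMaximal.isPrime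
    haveI : IsDomain (E ⧸ I.asIdeal) := Ideal.Quotient.isDomain _
    let p : (E ⧸ I.asIdeal)[X] := X ^ 2 + C (Ideal.Quotient.mk I.asIdeal u) * X +
      C (Ideal.Quotient.mk I.asIdeal w)
    have hp : p.natDegree ≤ 2 := by
      simp only [p]
      compute_degree
    have hp0 : p ≠ 0 := by
      intro h0
      have : p.coeff 2 = 1 := by
        simp only [p]
        compute_degree!
      rw [h0, coeff_zero] at this
      exact zero_ne_one this
    have hsub : {z : E ⧸ I.asIdeal | z ^ 2 +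
      (Ideal.Quotient.mk I.asIdeal u) * z + Ideal.Quotient.mk I.asIdeal w = 0} ⊆
        (p.roots.toFinset : Set (E ⧸ I.asIdeal)) := by
      intro z hz
      rw [Finset.mem_coe, Multiset.mem_toFinset, mem_roots hp0, IsRoot.def]
      simp only [p, eval_add, eval_mul, eval_pow, eval_X, eval_C]
      exact hz
    refine (Set.ncard_le_ncard hsub (Finset.finite_toSet _)).trans ?_
    rw [Set.ncard_coe_finset]
    exact (Multiset.toFinset_card_le _).trans ((card_roots' p).trans hp)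
  let Tt : ∀ I : MaximalSpectrum E, Finset (E ⧸ I.asIdeal) := fun I =>
    Set.Finite.toFinset (s := {z : E ⧸ I.asIdeal | z ^ 2 +
      (Ideal.Quotient.mk I.asIdeal u) * z + Ideal.Quotient.mk I.asIdeal w = 0}) (Set.toFinite _)
  have hT : ∀ I, (Tt I).card ≤ 2 := by
    intro I
    rw [← Set.ncard_eq_toFinset_card]
    exact hroots I
  have hmaps : ∀ x ∈ {x : E | x ^ 2 + u * x + w = 0}, e x ∈ (Fintype.piFinset Tt : Set _) := by
    intro x hx
    rw [Finset.mem_coe, Fintype.mem_piFinset]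
    intro I
    simp only [Tt, Set.Finite.mem_toFinset, Set.mem_ofPred_eq, e]
    rw [IsArtinianRing.equivPi_apply]
    have h5 := congrArg (Ideal.Quotient.mk I.asIdeal) hx
    simpa using h5
  have h6 := Set.ncard_le_ncard_of_injOn e hmaps (e.injective.injOn) (Finset.finite_toSet _)
  refine h6.trans ?_
  rw [Set.ncard_coe_finset, Fintype.card_piFinset]
  calc ∏ I, (Tt I).card ≤ ∏ _I : MaximalSpectrum E, 2 := Finset.prod_le_prod' fun I _ => hT I
    _ = 2 ^ Nat.card (MaximalSpectrum E) := by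
        rw [Finset.prod_const, Finset.card_univ, Nat.card_eq_fintype_card]
    _ ≤ 2 ^ g := Nat.pow_le_pow_right (by norm_num) hcard

lemma count_pairs {F E : Type*} [Field F] [Finite F] [CommRing E] [Finite E] [IsReduced E]
    [Algebra F E] {g : ℕ} (hc : Nat.card E = Nat.card F ^ g) (γ : F) (t : E) :
    {p : E × E | (p.1 + t * p.2) * p.1 + γ • (p.2 * p.2) = 1}.ncard ≤
      (2 * Nat.card F) ^ g := by
  classical
  haveI : Fintype E := Fintype.ofFinite _
  rw [Set.ncard_eq_toFinset_card']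
  have h1 := Finset.card_le_mul_card_image_of_maps_to
    (f := fun p : E × E => p.2)
    (s := {p : E × E | (p.1 + t * p.2) * p.1 + γ • (p.2 * p.2) = 1}.toFinset)
    (t := Finset.univ) (fun _ _ => Finset.mem_univ _) (2 ^ g) (by
      intro y _
      have h2 := count_quad hc (t * y) (γ • (y * y) - 1)
      rw [Set.ncard_eq_toFinset_card'] at h2
      refine le_trans ?_ h2
      apply Finset.card_le_card_of_injOn (fun p => p.1)
      · intro p hp
        simp only [Finset.coe_filter, Set.mem_toFinset, Set.mem_ofPred_eq, Finset.mem_coe] at hp ⊢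
        obtain ⟨h3, h4⟩ := hp
        rw [h4] at h3
        linear_combination h3
      · intro p hp p' hp' h
        simp only [Finset.coe_filter, Set.mem_ofPred_eq] at hp hp'
        exact Prod.ext h (hp.2.trans hp'.2.symm))
  refine h1.trans ?_
  rw [Finset.card_univ, ← Nat.card_eq_fintype_card, hc, mul_pow]

/-- the main inequality for a model -/
lemma main_ineq {F : Type*} [Field F] [Finite F] {g : ℕ} {γ : F} (hγ : γ ≠ 0) {E : Type*}
    [CommRing E] [Finite E] [IsReduced E] [Algebra F E] (hc : Nat.card E = Nat.card F ^ g)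
    (b : Module.Basis (Fin g) F E) (τ : E →ₗ[F] F) (hτ : ∀ x, (∀ y, τ (x * y) = 0) → x = 0)
    (t : E) (ht : Algebra.adjoin F {t} = ⊤) :
    {A : Matrix (Fin g ⊕ Fin g) (Fin g ⊕ Fin g) F |
        A * Matrix.J (Fin g) F * Aᵀ = γ • Matrix.J (Fin g) F}.ncard ≤
      (2 * Nat.card F) ^ g *
      {A : Matrix (Fin g ⊕ Fin g) (Fin g ⊕ Fin g) F |
        A * Matrix.J (Fin g) F * Aᵀ = γ • Matrix.J (Fin g) F ∧
        A.charpoly = ∑ j ∈ Finset.range (g + 1),
          C ((Algebra.leftMulMatrix b t).charpoly.coeff j) *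
            ((X ^ 2 + C γ) ^ j * X ^ (g - j))}.ncard := by
  classical
  obtain ⟨H, hH⟩ : ∃ H, H = gram b τ := ⟨_, rfl⟩
  have hdet : H.det ≠ 0 := by rw [hH]; exact gram_det b τ hτ
  have hunit : IsUnit H.det := isUnit_iff_ne_zero.2 hdet
  obtain ⟨Hi, hHi⟩ : ∃ Hi, Hi = H⁻¹ := ⟨_, rfl⟩
  have h1 : H * Hi = 1 := by rw [hHi]; exact Matrix.mul_nonsing_inv _ hunit
  have h2 : Hi * H = 1 := by rw [hHi]; exact Matrix.nonsing_inv_mul _ hunit
  have hs : Hᵀ = H := by rw [hH]; exact gram_symm b τ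
  have hL : ∀ x, (Algebra.leftMulMatrix b x)ᵀ * H = H * Algebra.leftMulMatrix b x := by
    intro x; rw [hH]; exact gram_mul_symm b τ x
  obtain ⟨M, hM⟩ : ∃ M, M = Algebra.leftMulMatrix b t := ⟨_, rfl⟩
  obtain ⟨A0, hA0⟩ : ∃ A0, A0 = mod0 γ H Hi M := ⟨_, rfl⟩
  have hA0s : A0 * Matrix.J (Fin g) F * A0ᵀ = γ • Matrix.J (Fin g) F := by
    rw [hA0]; exact mod0_mem γ h1 h2 hs (by rw [hM]; exact hL t)
  have hA0c : A0.charpoly = ∑ j ∈ Finset.range (g + 1),
          C ((Algebra.leftMulMatrix b t).charpoly.coeff j) *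
            ((X ^ 2 + C γ) ^ j * X ^ (g - j)) := by
    rw [hA0, mod0_charpoly γ h2, Fintype.card_fin, hM]
  have hJu : IsUnit (Matrix.J (Fin g) F).det := Matrix.isUnit_det_J _ _
  -- elements with a multiplier are invertible
  have hinv : ∀ (δ : F), δ ≠ 0 → ∀ A : Matrix (Fin g ⊕ Fin g) (Fin g ⊕ Fin g) F,
      A * Matrix.J (Fin g) F * Aᵀ = δ • Matrix.J (Fin g) F → IsUnit A.det := by
    intro δ hδ A hA
    have h5 := congrArg Matrix.det hA
    rw [Matrix.det_mul, Matrix.det_mul, Matrix.det_smul] at h5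
    have h6 : IsUnit (δ ^ Fintype.card (Fin g ⊕ Fin g) * (Matrix.J (Fin g) F).det) :=
      (IsUnit.mk0 _ (pow_ne_zero _ hδ)).mul hJu
    rw [← h5, mul_assoc] at h6
    exact isUnit_of_mul_isUnit_left h6
  have hA0u : IsUnit A0.det := hinv γ hγ A0 hA0s
  have hmulinv : ∀ A B : Matrix (Fin g ⊕ Fin g) (Fin g ⊕ Fin g) F, IsUnit A.det →
      ∀ δ ε : F, A * Matrix.J (Fin g) F * Aᵀ = δ • Matrix.J (Fin g) F → δ ≠ 0 →
      B * Matrix.J (Fin g) F * Bᵀ = ε • Matrix.J (Fin g) F →
      (A⁻¹ * B) * Matrix.J (Fin g) F * (A⁻¹ * B)ᵀ = (δ⁻¹ * ε) • Matrix.J (Fin g) F := by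
    intro A B hAu δ ε hA hδ hB
    have e0 : A⁻¹ * A = 1 := Matrix.nonsing_inv_mul _ hAu
    have e0' : Aᵀ * (A⁻¹)ᵀ = 1 := by rw [← Matrix.transpose_mul, e0, Matrix.transpose_one]
    have e1 : A⁻¹ * Matrix.J (Fin g) F * (A⁻¹)ᵀ = δ⁻¹ • Matrix.J (Fin g) F := by
      have e2 : Matrix.J (Fin g) F = δ⁻¹ • (A * Matrix.J (Fin g) F * Aᵀ) := by
        rw [hA, smul_smul, inv_mul_cancel₀ hδ, one_smul]
      conv_lhs => rw [e2]
      rw [Matrix.mul_smul, Matrix.smul_mul]
      congr 1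
      calc A⁻¹ * (A * Matrix.J (Fin g) F * Aᵀ) * (A⁻¹)ᵀ
          = (A⁻¹ * A) * Matrix.J (Fin g) F * (Aᵀ * (A⁻¹)ᵀ) := by simp only [Matrix.mul_assoc]
        _ = Matrix.J (Fin g) F := by rw [e0, e0', Matrix.one_mul, Matrix.mul_one]
    calc (A⁻¹ * B) * Matrix.J (Fin g) F * (A⁻¹ * B)ᵀ
        = A⁻¹ * (B * Matrix.J (Fin g) F * Bᵀ) * (A⁻¹)ᵀ := by
          rw [Matrix.transpose_mul]; simp only [Matrix.mul_assoc]
      _ = (δ⁻¹ * ε) • Matrix.J (Fin g) F := by
          rw [hB, Matrix.mul_smul, Matrix.smul_mul, e1, smul_smul, mul_comm]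
  obtain ⟨Gs, hGs⟩ : ∃ Gs, Gs = {B : Matrix (Fin g ⊕ Fin g) (Fin g ⊕ Fin g) F |
      B * Matrix.J (Fin g) F * Bᵀ = (1 : F) • Matrix.J (Fin g) F} := ⟨_, rfl⟩
  haveI : Finite (Matrix (Fin g ⊕ Fin g) (Fin g ⊕ Fin g) F) :=
    inferInstanceAs (Finite (Fin g ⊕ Fin g → Fin g ⊕ Fin g → F))
  haveI : Fintype (Matrix (Fin g ⊕ Fin g) (Fin g ⊕ Fin g) F) := Fintype.ofFinite _
  -- (c)
  have hc1 : {A : Matrix (Fin g ⊕ Fin g) (Fin g ⊕ Fin g) F |
        A * Matrix.J (Fin g) F * Aᵀ = γ • Matrix.J (Fin g) F}.ncard ≤ Gs.ncard := by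
    apply Set.ncard_le_ncard_of_injOn (fun A => A0⁻¹ * A) _ _ (Set.toFinite _)
    · intro A hA
      rw [hGs]
      have := hmulinv A0 A hA0u γ γ hA0s hγ hA
      rw [inv_mul_cancel₀ hγ] at this
      exact this
    · intro A _ B _ hAB
      have h5 : A0 * (A0⁻¹ * A) = A0 * (A0⁻¹ * B) := congrArg (fun Z => A0 * Z) hAB
      rwa [← Matrix.mul_assoc, ← Matrix.mul_assoc, Matrix.mul_nonsing_inv _ hA0u, Matrix.one_mul,
        Matrix.one_mul] at h5
  refine hc1.trans ?_
  -- the centraliser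
  have hZ : {B : Matrix (Fin g ⊕ Fin g) (Fin g ⊕ Fin g) F | B ∈ Gs ∧ B * A0 = A0 * B}.ncard ≤
      (2 * Nat.card F) ^ g := by
    refine le_trans ?_ (count_pairs hc γ t)
    have hsub : {B : Matrix (Fin g ⊕ Fin g) (Fin g ⊕ Fin g) F | B ∈ Gs ∧ B * A0 = A0 * B} ⊆
        (fun p : E × E => Phi γ H Hi M (Algebra.leftMulMatrix b p.1)
          (Algebra.leftMulMatrix b p.2)) ''
          {p : E × E | (p.1 + t * p.2) * p.1 + γ • (p.2 * p.2) = 1} := by
      rintro B ⟨hB1, hB2⟩
      rw [hGs] at hB1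
      rw [hA0] at hB2
      obtain ⟨X, Y, hX, hY, hB⟩ := commutant hγ h1 h2 hB2
      rw [hM] at hX hY
      obtain ⟨x, hx⟩ := comm_mul b ht hX
      obtain ⟨y, hy⟩ := comm_mul b ht hY
      refine ⟨(x, y), ?_, ?_⟩
      · have h5 : Phi γ H Hi M X Y * Matrix.J (Fin g) F * (Phi γ H Hi M X Y)ᵀ =
            Matrix.J (Fin g) F := by
          rw [← hB]
          have := hB1
          rw [Set.mem_ofPred_eq, one_smul] at this
          exact this
        have h6 := Phi_rel h1 h2 hs (by rw [hx]; exact hL x) (by rw [hy]; exact hL y) h5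
        rw [hx, hy, hM, ← map_mul, ← map_add, ← map_mul, ← map_mul, ← map_smul, ← map_add,
          ← map_one (Algebra.leftMulMatrix b)] at h6
        exact Algebra.leftMulMatrix_injective b h6
      · simp only
        rw [← hx, ← hy, hB]
    exact (Set.ncard_le_ncard hsub (Set.toFinite _)).trans (Set.ncard_image_le (Set.toFinite _))
  -- the orbit map
  obtain ⟨Ts, hTs⟩ : ∃ Ts, Ts = {A : Matrix (Fin g ⊕ Fin g) (Fin g ⊕ Fin g) F |
        A * Matrix.J (Fin g) F * Aᵀ = γ • Matrix.J (Fin g) F ∧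
        A.charpoly = ∑ j ∈ Finset.range (g + 1),
          C ((Algebra.leftMulMatrix b t).charpoly.coeff j) *
            ((X ^ 2 + C γ) ^ j * X ^ (g - j))} := ⟨_, rfl⟩
  rw [← hTs]
  rw [Set.ncard_eq_toFinset_card' Gs, Set.ncard_eq_toFinset_card' Ts]
  apply Finset.card_le_mul_card_image_of_maps_to (f := fun B => B * A0 * B⁻¹)
  · intro B hB
    rw [Set.mem_toFinset] at hB ⊢
    rw [hGs] at hB
    rw [hTs]
    have hBu : IsUnit B.det := hinv 1 one_ne_zero B hB
    have hBi : B⁻¹ * B = 1 := Matrix.nonsing_inv_mul _ hBu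
    have hBi' : B * B⁻¹ = 1 := Matrix.mul_nonsing_inv _ hBu
    have hone : (1 : Matrix (Fin g ⊕ Fin g) (Fin g ⊕ Fin g) F) * Matrix.J (Fin g) F *
        (1 : Matrix (Fin g ⊕ Fin g) (Fin g ⊕ Fin g) F)ᵀ = (1 : F) • Matrix.J (Fin g) F := by
      rw [Matrix.transpose_one, Matrix.mul_one, Matrix.one_mul, one_smul]
    have hBinv : B⁻¹ * Matrix.J (Fin g) F * (B⁻¹)ᵀ = Matrix.J (Fin g) F := by
      have := hmulinv B 1 hBu 1 1 hB one_ne_zero hone
      rw [Matrix.mul_one, inv_one, one_mul, one_smul] at this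
      exact this
    refine ⟨?_, ?_⟩
    · calc (B * A0 * B⁻¹) * Matrix.J (Fin g) F * (B * A0 * B⁻¹)ᵀ
          = B * (A0 * (B⁻¹ * Matrix.J (Fin g) F * (B⁻¹)ᵀ) * A0ᵀ) * Bᵀ := by
            rw [Matrix.transpose_mul, Matrix.transpose_mul]; simp only [Matrix.mul_assoc]
        _ = γ • Matrix.J (Fin g) F := by
            rw [hBinv, hA0s, Matrix.mul_smul, Matrix.smul_mul]
            have := hB
            rw [Set.mem_ofPred_eq, one_smul] at this
            rw [this]
    · rw [← hA0c, Matrix.mul_assoc, Matrix.charpoly_mul_comm, Matrix.mul_assoc, hBi,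
        Matrix.mul_one]
  · intro A hA
    by_cases hne : ∃ B1, B1 ∈ Gs ∧ B1 * A0 * B1⁻¹ = A
    · obtain ⟨B1, hB1, hB1A⟩ := hne
      have hB1' := hB1
      rw [hGs] at hB1'
      have hB1u : IsUnit B1.det := hinv 1 one_ne_zero B1 hB1'
      refine le_trans ?_ hZ
      rw [Set.ncard_eq_toFinset_card']
      apply Finset.card_le_card_of_injOn (fun B => B1⁻¹ * B)
      · intro B hB
        simp only [Finset.coe_filter, Set.mem_toFinset, Set.mem_ofPred_eq, Finset.mem_coe] at hB ⊢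
        obtain ⟨hB2, hB3⟩ := hB
        have hB2' := hB2
        rw [hGs] at hB2'
        have hBu : IsUnit B.det := hinv 1 one_ne_zero B hB2'
        refine ⟨?_, ?_⟩
        · rw [hGs]
          have := hmulinv B1 B hB1u 1 1 hB1' one_ne_zero hB2'
          rw [inv_one, one_mul] at this
          exact this
        · have h7 : B * A0 = A * B := by
            rw [← hB3, Matrix.mul_assoc, Matrix.nonsing_inv_mul _ hBu, Matrix.mul_one]
          have h8 : B1 * A0 = A * B1 := by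
            rw [← hB1A, Matrix.mul_assoc, Matrix.nonsing_inv_mul _ hB1u, Matrix.mul_one]
          have h9 : A0 * B1⁻¹ = B1⁻¹ * A := by
            calc A0 * B1⁻¹ = (B1⁻¹ * B1) * A0 * B1⁻¹ := by
                  rw [Matrix.nonsing_inv_mul _ hB1u, Matrix.one_mul]
              _ = B1⁻¹ * (B1 * A0) * B1⁻¹ := by simp only [Matrix.mul_assoc]
              _ = B1⁻¹ * A * (B1 * B1⁻¹) := by rw [h8]; simp only [Matrix.mul_assoc]
              _ = B1⁻¹ * A := by rw [Matrix.mul_nonsing_inv _ hB1u, Matrix.mul_one]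
          rw [Matrix.mul_assoc, h7, ← Matrix.mul_assoc, ← Matrix.mul_assoc, h9]
      · intro B _ B' _ hBB
        have h5 : B1 * (B1⁻¹ * B) = B1 * (B1⁻¹ * B') := congrArg (fun Z => B1 * Z) hBB
        rwa [← Matrix.mul_assoc, ← Matrix.mul_assoc, Matrix.mul_nonsing_inv _ hB1u, Matrix.one_mul,
          Matrix.one_mul] at h5
    · have h5 : (Finset.filter (fun B => B * A0 * B⁻¹ = A) Gs.toFinset) = ∅ := by
        rw [Finset.filter_eq_empty_iff]
        intro B hB hBA
        exact hne ⟨B, Set.mem_toFinset.1 hB, hBA⟩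
      rw [h5, Finset.card_empty]
      exact Nat.zero_le _

end Pool.Agent.W337.MF
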