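import Pool.Agent.W337.MF.OrbC

/-!
# Similitudes with given characteristic polynomial (helper337)
-/

open Polynomial Matrix

namespace Pool.Agent.W337.MF

open Pool.Agent.W458.MF Pool.Agent.W521.Frob

theorem orb : St_ORB := by
  classical
  intro g l q hg hl hq h hm hdeg hsq
  have : Fact l.Prime := ⟨hl⟩
  obtain ⟨f, hf⟩ : ∃ f, f = h.map (Int.castRingHom (ZMod l)) := ⟨_, rfl⟩
  rw [← hf] at hsq
  have hfm : f.Monic := by rw [hf]; exact hm.map _
  have hf0 : f ≠ 0 := hfm.ne_zero
  have hfd : f.natDegree = g := by rw [hf, hm.natDegree_map, hdeg]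
  have hγ : ((q : ℕ) : ZMod l) ≠ 0 := by
    rw [Ne, CharP.cast_eq_zero_iff (ZMod l) l]
    exact hq
  -- the algebra
  have hred : IsReduced (AdjoinRoot f) := by
    have h1 : IsRadical f := (isRadical_iff_squarefree_of_ne_zero hf0).2 hsq
    rw [isRadical_iff_span_singleton] at h1
    exact (Ideal.isRadical_iff_quotient_reduced _).1 h1
  let pb := AdjoinRoot.powerBasis hf0
  have hpb : pb.dim = g := by
    rw [← hfd]; rfl
  let b : Module.Basis (Fin g) (ZMod l) (AdjoinRoot f) := pb.basis.reindex (finCongr hpb)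
  have hfin : Finite (AdjoinRoot f) := Finite.of_equiv _ b.equivFun.symm.toEquiv
  have hcard : Nat.card (AdjoinRoot f) = Nat.card (ZMod l) ^ g := by
    rw [Nat.card_congr b.equivFun.toEquiv, Nat.card_fun, Nat.card_fin]
  have hchar : (Algebra.leftMulMatrix b (AdjoinRoot.root f)).charpoly = f := by
    have h1 : (Algebra.leftMulMatrix b (AdjoinRoot.root f)).charpoly =
        (Algebra.leftMulMatrix pb.basis pb.gen).charpoly := by
      rw [Algebra.leftMulMatrix_apply, Algebra.leftMulMatrix_apply, LinearMap.charpoly_toMatrix,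
        LinearMap.charpoly_toMatrix]
      rfl
    rw [h1, charpoly_leftMulMatrix]
    exact AdjoinRoot.minpoly_powerBasis_gen_of_monic hfm hf0
  let τ : AdjoinRoot f →ₗ[ZMod l] ZMod l :=
    (Polynomial.lcoeff (ZMod l) (g - 1)) ∘ₗ (AdjoinRoot.modByMonicHom hfm)
  have hτ : ∀ x, (∀ y, τ (x * y) = 0) → x = 0 := by
    intro x hx
    by_contra hx0
    obtain ⟨r, hr⟩ : ∃ r, r = AdjoinRoot.modByMonicHom hfm x := ⟨_, rfl⟩
    have hxr : AdjoinRoot.mk f r = x := by
      rw [hr]; exact AdjoinRoot.mk_leftInverse hfm x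
    have hr0 : r ≠ 0 := by
      intro h0
      rw [h0, map_zero] at hxr
      exact hx0 hxr.symm
    have hrd : r.natDegree < g := by
      obtain ⟨p, hp⟩ := AdjoinRoot.mk_surjective x
      have h1 : r = p %ₘ f := by
        rw [hr, ← hp, AdjoinRoot.modByMonicHom_mk]
      rw [← hfd, h1]
      apply natDegree_modByMonic_lt _ hfm
      intro h2
      rw [h2, natDegree_one] at hfd
      omega
    have h3 := hx (AdjoinRoot.mk f (X ^ (g - 1 - r.natDegree)))
    rw [← hxr, ← map_mul] at h3
    simp only [τ, LinearMap.comp_apply, AdjoinRoot.modByMonicHom_mk, Polynomial.lcoeff_apply] at h3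
    have h4 : (r * X ^ (g - 1 - r.natDegree)) %ₘ f = r * X ^ (g - 1 - r.natDegree) := by
      rw [modByMonic_eq_self_iff hfm]
      apply degree_lt_degree
      rw [natDegree_mul_X_pow _ hr0, hfd]
      omega
    rw [h4] at h3
    have h5 : g - 1 = r.natDegree + (g - 1 - r.natDegree) := by omega
    rw [h5] at h3
    have h6 : (r * X ^ (r.natDegree + (g - 1 - r.natDegree) - r.natDegree)).coeff
        (r.natDegree + (g - 1 - r.natDegree)) = r.coeff r.natDegree := by
      have h7 : r.natDegree + (g - 1 - r.natDegree) - r.natDegree = g - 1 - r.natDegree := by omega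
      rw [h7, coeff_mul_X_pow]
    rw [h6] at h3
    exact hr0 (leadingCoeff_eq_zero.1 h3)
  have hmain := main_ineq hγ hcard b τ hτ (AdjoinRoot.root f) AdjoinRoot.adjoinRoot_eq_top
  rw [hchar, Nat.card_zmod] at hmain
  have hweil : (weil q h).map (Int.castRingHom (ZMod l)) = ∑ j ∈ Finset.range (g + 1),
      C (f.coeff j) * ((X ^ 2 + C ((q : ℕ) : ZMod l)) ^ j * X ^ (g - j)) := by
    unfold weil
    rw [Polynomial.map_sum, hdeg]
    refine Finset.sum_congr rfl fun j _ => ?_
    rw [hf, coeff_map]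
    simp only [Polynomial.map_mul, Polynomial.map_pow, Polynomial.map_add, map_X, map_C]
    congr 4
    simp
  have hset1 : similitudes g l q = {A : Matrix (Fin g ⊕ Fin g) (Fin g ⊕ Fin g) (ZMod l) |
        A * Matrix.J (Fin g) (ZMod l) * Aᵀ = ((q : ℕ) : ZMod l) • Matrix.J (Fin g) (ZMod l)} := rfl
  have hset2 : {A : Matrix (Fin g ⊕ Fin g) (Fin g ⊕ Fin g) (ZMod l) | A ∈ similitudes g l q ∧
        A.charpoly = (weil q h).map (Int.castRingHom (ZMod l))} =
      {A : Matrix (Fin g ⊕ Fin g) (Fin g ⊕ Fin g) (ZMod l) |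
        A * Matrix.J (Fin g) (ZMod l) * Aᵀ = ((q : ℕ) : ZMod l) • Matrix.J (Fin g) (ZMod l) ∧
        A.charpoly = ∑ j ∈ Finset.range (g + 1),
          C (f.coeff j) * ((X ^ 2 + C ((q : ℕ) : ZMod l)) ^ j * X ^ (g - j))} := by
    rw [hweil]
    rfl
  rw [hset2, hset1]
  exact hmain

end Pool.Agent.W337.MF
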