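import Mathlib

/-!
# Similitudes with given characteristic polynomial, linear algebra (helper337)
-/

open Polynomial Matrix

namespace Pool.Agent.W337.MF

section alg

variable {F E n : Type*} [Field F] [CommRing E] [Algebra F E] [Fintype n] [DecidableEq n]
  (b : Module.Basis n F E) (τ : E →ₗ[F] F)

/-- Gram matrix of the form `τ (x y)` -/
noncomputable def gram : Matrix n n F := Matrix.of fun i j => τ (b i * b j)

omit [Fintype n] [DecidableEq n] in
lemma gram_symm : (gram b τ)ᵀ = gram b τ := by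
  ext i j
  simp only [gram, Matrix.transpose_apply, Matrix.of_apply]
  rw [mul_comm]

lemma gram_mul (x : E) :
    gram b τ * Algebra.leftMulMatrix b x = Matrix.of fun i j => τ (b i * (x * b j)) := by
  ext i j
  rw [Matrix.mul_apply]
  simp only [gram, Matrix.of_apply]
  have h1 : x * b j = ∑ k, (b.repr (x * b j) k) • b k := (b.sum_repr (x * b j)).symm
  conv_rhs => rw [h1]
  rw [Finset.mul_sum, map_sum]
  refine Finset.sum_congr rfl fun k _ => ?_
  rw [mul_smul_comm, map_smul, Algebra.leftMulMatrix_eq_repr_mul, smul_eq_mul, mul_comm]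

lemma gram_mul_symm (x : E) :
    (Algebra.leftMulMatrix b x)ᵀ * gram b τ = gram b τ * Algebra.leftMulMatrix b x := by
  have h1 : (Algebra.leftMulMatrix b x)ᵀ * gram b τ = (gram b τ * Algebra.leftMulMatrix b x)ᵀ := by
    rw [Matrix.transpose_mul, gram_symm]
  rw [h1, gram_mul]
  ext i j
  simp only [Matrix.transpose_apply, Matrix.of_apply]
  congr 1
  ring

lemma gram_det (h : ∀ x, (∀ y, τ (x * y) = 0) → x = 0) : (gram b τ).det ≠ 0 := by
  intro hdet
  obtain ⟨v, hv, hv'⟩ := Matrix.exists_mulVec_eq_zero_iff.2 hdet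
  apply hv
  have h1 : ∑ j, v j • b j = 0 := by
    apply h
    intro y
    rw [← b.sum_repr y, Finset.mul_sum, map_sum]
    refine Finset.sum_eq_zero fun i _ => ?_
    rw [mul_smul_comm, map_smul]
    have h2 := congrFun hv' i
    simp only [Matrix.mulVec, dotProduct, gram, Matrix.of_apply, Pi.zero_apply] at h2
    rw [Finset.sum_mul, map_sum]
    have h3 : ∑ j, τ (v j • b j * b i) = ∑ j, τ (b i * b j) * v j := by
      refine Finset.sum_congr rfl fun j _ => ?_
      rw [smul_mul_assoc, map_smul, smul_eq_mul, mul_comm, mul_comm (b j)]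
    rw [h3, h2, smul_zero]
  have h2 := Fintype.linearIndependent_iff.1 b.linearIndependent v h1
  funext i
  exact h2 i

lemma comm_mul {t : E} (ht : Algebra.adjoin F {t} = ⊤) {B : Matrix n n F}
    (hB : B * Algebra.leftMulMatrix b t = Algebra.leftMulMatrix b t * B) :
    ∃ x, B = Algebra.leftMulMatrix b x := by
  have hall : ∀ y : E, B * Algebra.leftMulMatrix b y = Algebra.leftMulMatrix b y * B := by
    intro y
    have h1 : Algebra.adjoin F {t} ≤
        (Subalgebra.centralizer F {B}).comap (Algebra.leftMulMatrix b) := by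
      apply Algebra.adjoin_le
      intro z hz
      rw [Set.mem_singleton_iff] at hz
      rw [hz]
      simp only [Subalgebra.coe_comap, Set.mem_preimage, SetLike.mem_coe,
        Subalgebra.mem_centralizer_iff, Set.mem_singleton_iff, forall_eq]
      exact hB
    have h2 := h1 (by rw [ht]; exact Algebra.mem_top : y ∈ Algebra.adjoin F {t})
    simp only [Subalgebra.mem_comap, Subalgebra.mem_centralizer_iff, Set.mem_singleton_iff,
      forall_eq] at h2
    exact h2
  obtain ⟨x, hx⟩ : ∃ x : E, ⇑(b.repr x) = B *ᵥ ⇑(b.repr 1) := by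
    refine ⟨b.equivFun.symm (B *ᵥ ⇑(b.repr 1)), ?_⟩
    rw [← b.equivFun_apply, LinearEquiv.apply_symm_apply]
  refine ⟨x, ?_⟩
  have h3 : ∀ y : E, B *ᵥ ⇑(b.repr y) = Algebra.leftMulMatrix b x *ᵥ ⇑(b.repr y) := by
    intro y
    rw [Algebra.leftMulMatrix_mulVec_repr]
    have h4 : ⇑(b.repr y) = Algebra.leftMulMatrix b y *ᵥ ⇑(b.repr 1) := by
      rw [Algebra.leftMulMatrix_mulVec_repr, mul_one]
    rw [h4, Matrix.mulVec_mulVec, hall, ← Matrix.mulVec_mulVec, ← hx,
      Algebra.leftMulMatrix_mulVec_repr, mul_comm]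
  ext i j
  have h5 := congrFun (h3 (b j)) i
  rw [b.repr_self] at h5
  simpa [Matrix.mulVec, dotProduct, Finsupp.single_apply] using h5

end alg

section block

variable {F n : Type*} [Field F] [Fintype n] [DecidableEq n]

/-- the model similitude -/
def mod0 (γ : F) (H Hi M : Matrix n n F) : Matrix (n ⊕ n) (n ⊕ n) F :=
  Matrix.fromBlocks 0 (-(γ • H)) Hi M

lemma mod0_mem (γ : F) {H Hi M : Matrix n n F} (h1 : H * Hi = 1) (h2 : Hi * H = 1)
    (hs : Hᵀ = H) (hM : Mᵀ * H = H * M) :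
    mod0 γ H Hi M * Matrix.J n F * (mod0 γ H Hi M)ᵀ = γ • Matrix.J n F := by
  have his : Hiᵀ = Hi := by
    have h3 : Hiᵀ * H = 1 := by
      rw [← hs, ← Matrix.transpose_mul, h1, Matrix.transpose_one]
    calc Hiᵀ = Hiᵀ * (H * Hi) := by rw [h1, Matrix.mul_one]
      _ = Hi := by rw [← Matrix.mul_assoc, h3, Matrix.one_mul]
  have hM2 : M * Hi = Hi * Mᵀ := by
    calc M * Hi = (Hi * H) * M * Hi := by rw [h2, Matrix.one_mul]
      _ = Hi * (H * M) * Hi := by rw [Matrix.mul_assoc Hi H M]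
      _ = Hi * (Mᵀ * H) * Hi := by rw [hM]
      _ = Hi * Mᵀ * (H * Hi) := by simp only [Matrix.mul_assoc]
      _ = Hi * Mᵀ := by rw [h1, Matrix.mul_one]
  simp only [mod0, Matrix.J, Matrix.fromBlocks_multiply, Matrix.fromBlocks_transpose,
    Matrix.fromBlocks_smul, Matrix.transpose_zero, Matrix.transpose_neg, Matrix.transpose_smul,
    hs, his]
  congr 1
  · simp
  · simp [h1]
  · simp [h2]
  · simp [hM2]

/-- the elements of the commutant -/
def Phi (γ : F) (H Hi M X Y : Matrix n n F) : Matrix (n ⊕ n) (n ⊕ n) F :=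
  Matrix.fromBlocks (H * X * Hi) (-(γ • (H * Y))) (Y * Hi) (X + M * Y)

lemma commutant {γ : F} (hγ : γ ≠ 0) {H Hi M : Matrix n n F} (h1 : H * Hi = 1) (h2 : Hi * H = 1)
    {B : Matrix (n ⊕ n) (n ⊕ n) F} (hB : B * mod0 γ H Hi M = mod0 γ H Hi M * B) :
    ∃ X Y : Matrix n n F, X * M = M * X ∧ Y * M = M * Y ∧ B = Phi γ H Hi M X Y := by
  obtain ⟨a, b, c, d, rfl⟩ : ∃ a b c d, B = Matrix.fromBlocks a b c d :=
    ⟨_, _, _, _, (Matrix.fromBlocks_toBlocks B).symm⟩
  simp only [mod0, Matrix.fromBlocks_multiply, Matrix.fromBlocks_inj, Matrix.mul_zero,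
    Matrix.zero_mul, zero_add, Matrix.neg_mul, Matrix.mul_neg, Matrix.smul_mul,
    Matrix.mul_smul] at hB
  obtain ⟨e11, e12, e21, e22⟩ := hB
  refine ⟨Hi * a * H, c * H, ?_⟩
  have eb : b = -(γ • (H * (c * H))) := by
    calc b = b * Hi * H := by rw [Matrix.mul_assoc, h2, Matrix.mul_one]
      _ = -(γ • (H * (c * H))) := by
        rw [e11, Matrix.neg_mul, Matrix.smul_mul, Matrix.mul_assoc]
  have ed : d = Hi * a * H + M * (c * H) := by
    calc d = d * Hi * H := by rw [Matrix.mul_assoc, h2, Matrix.mul_one]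
      _ = Hi * a * H + M * (c * H) := by
        rw [e21, Matrix.add_mul, Matrix.mul_assoc M]
  obtain ⟨X, hX⟩ : ∃ X, X = Hi * a * H := ⟨_, rfl⟩
  obtain ⟨Y, hY⟩ : ∃ Y, Y = c * H := ⟨_, rfl⟩
  rw [← hX, ← hY] at ed
  rw [← hY] at eb
  rw [← hX, ← hY]
  have ea : a = H * X * Hi := by
    rw [hX]
    calc a = (H * Hi) * a * (H * Hi) := by rw [h1, Matrix.mul_one, Matrix.one_mul]
      _ = H * (Hi * a * H) * Hi := by simp only [Matrix.mul_assoc]
  have ec : c = Y * Hi := by
    rw [hY, Matrix.mul_assoc, h1, Matrix.mul_one]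
  have q1 : Y * M = M * Y := by
    -- from e12
    have h3 : γ • (H * (X + M * Y)) = γ • (H * (X + Y * M)) := by
      have h4 : -(γ • (a * H)) + b * M = -(γ • (H * d)) := e12
      have h5 : a * H = H * X := by
        rw [ea, Matrix.mul_assoc, h2, Matrix.mul_one]
      rw [h5, eb, ed] at h4
      have h6 : -(γ • (H * X)) + -(γ • (H * Y)) * M = -(γ • (H * (X + Y * M))) := by
        rw [Matrix.neg_mul, Matrix.smul_mul, Matrix.mul_add, smul_add, neg_add, Matrix.mul_assoc]
      rw [h6] at h4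
      exact (neg_inj.1 h4).symm
    have h7 : H * (X + M * Y) = H * (X + Y * M) := by
      have := congrArg (fun Z => γ⁻¹ • Z) h3
      simpa [smul_smul, inv_mul_cancel₀ hγ] using this
    have h8 : X + M * Y = X + Y * M := by
      have := congrArg (fun Z => Hi * Z) h7
      simpa [← Matrix.mul_assoc, h2] using this
    exact (add_left_cancel h8).symm
  have q2 : X * M = M * X := by
    have h4 : -(γ • (c * H)) + d * M = Hi * b + M * d := e22
    have h5 : Hi * b = -(γ • Y) := by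
      rw [eb, Matrix.mul_neg, Matrix.mul_smul, ← Matrix.mul_assoc, h2, Matrix.one_mul]
    rw [h5, ← hY] at h4
    have h6 := add_left_cancel h4
    rw [ed, Matrix.add_mul, Matrix.mul_add, Matrix.mul_assoc, q1] at h6
    exact add_right_cancel h6
  refine ⟨q2, q1, ?_⟩
  rw [Phi, ← ea, ← eb, ← ec, ← ed]

lemma Phi_rel {γ : F} {H Hi M X Y : Matrix n n F} (h1 : H * Hi = 1) (h2 : Hi * H = 1)
    (hs : Hᵀ = H) (hX : Xᵀ * H = H * X) (hY : Yᵀ * H = H * Y)
    (hB : Phi γ H Hi M X Y * Matrix.J n F * (Phi γ H Hi M X Y)ᵀ = Matrix.J n F) :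
    (X + M * Y) * X + γ • (Y * Y) = 1 := by
  have his : Hiᵀ = Hi := by
    have h3 : Hiᵀ * H = 1 := by
      rw [← hs, ← Matrix.transpose_mul, h1, Matrix.transpose_one]
    calc Hiᵀ = Hiᵀ * (H * Hi) := by rw [h1, Matrix.mul_one]
      _ = Hi := by rw [← Matrix.mul_assoc, h3, Matrix.one_mul]
  have hXt : Hi * (Xᵀ * H) = X := by
    rw [hX, ← Matrix.mul_assoc, h2, Matrix.one_mul]
  have hYt : Yᵀ * H = H * Y := hY
  simp only [Phi, Matrix.J, Matrix.fromBlocks_multiply, Matrix.fromBlocks_transpose,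
    Matrix.fromBlocks_inj] at hB
  have h3 := hB.2.2.1
  simp only [Matrix.mul_zero, Matrix.mul_one, zero_add, add_zero, Matrix.mul_neg,
    Matrix.transpose_neg, Matrix.transpose_smul, Matrix.transpose_mul, hs, his,
    Matrix.neg_mul, Matrix.mul_smul] at h3
  rw [hXt, hYt] at h3
  have h4 : Y * Hi * (H * Y) = Y * Y := by
    calc Y * Hi * (H * Y) = Y * (Hi * H) * Y := by simp only [Matrix.mul_assoc]
      _ = Y * Y := by rw [h2, Matrix.mul_one]
  rw [h4, smul_neg, neg_neg] at h3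
  exact h3

end block

end Pool.Agent.W337.MF
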