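import Pool.Agent.W337.MF.OrbA
import Pool.Agent.W458.MF.NStm

/-!
# The characteristic polynomial of the model similitude (helper337)
-/

open Polynomial Matrix

namespace Pool.Agent.W337.MF

open Pool.Agent.W458.MF Pool.Agent.W521.Frob

/-- determinant of a homogeneous combination -/
lemma det_hom {F K n : Type*} [Field F] [Field K] [Fintype n] [DecidableEq n] (φ : F →+* K)
    (M : Matrix n n F) (a c : K) (hc : c ≠ 0) :
    (Matrix.scalar n a - c • M.map φ).det =
      ∑ j ∈ Finset.range (Fintype.card n + 1), φ (M.charpoly.coeff j) * (a ^ j * c ^ (Fintype.card n - j)) := by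
  have h1 : Matrix.scalar n a - c • M.map φ = c • (Matrix.scalar n (a / c) - M.map φ) := by
    rw [smul_sub]
    congr 1
    ext i j
    simp only [Matrix.scalar_apply, Matrix.smul_apply, Matrix.diagonal_apply, smul_eq_mul]
    split_ifs
    · field_simp
    · simp
  rw [h1, Matrix.det_smul, ← Matrix.eval_charpoly, Matrix.charpoly_map, Polynomial.eval_map,
    Polynomial.eval₂_eq_sum_range, Matrix.charpoly_natDegree_eq_dim, Finset.mul_sum]
  refine Finset.sum_congr rfl fun j hj => ?_
  have hj' : j ≤ Fintype.card n := by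
    have := Finset.mem_range.1 hj
    omega
  have h2 : c ^ Fintype.card n = c ^ j * c ^ (Fintype.card n - j) := by
    rw [← pow_add, Nat.add_sub_cancel' hj']
  rw [h2, div_pow]
  field_simp

/-- determinant of a block matrix -/
lemma det_block {R n : Type*} [CommRing R] [Fintype n] [DecidableEq n] (x c : R)
    (Q : Matrix n n R) :
    (Matrix.fromBlocks (Matrix.scalar n x) (Matrix.scalar n c) (-1) Q).det =
      (Matrix.scalar n c + x • Q).det := by
  have h1 : (Matrix.fromBlocks (1 : Matrix n n R) (Matrix.scalar n x) 0 1) *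
      (Matrix.fromBlocks (Matrix.scalar n x) (Matrix.scalar n c) (-1) Q) *
      Matrix.fromBlocks 0 (-1) 1 0 =
      Matrix.fromBlocks (Matrix.scalar n c + x • Q) 0 Q 1 := by
    rw [Matrix.fromBlocks_multiply, Matrix.fromBlocks_multiply]
    congr 1
    · simp [Matrix.smul_eq_diagonal_mul]
    · simp
    · simp
    · simp
  have h2 := congrArg Matrix.det h1
  have hJ : (Matrix.fromBlocks (0 : Matrix n n R) (-1) 1 0).det = 1 :=
    SymplecticGroup.det_eq_one (SymplecticGroup.J_mem (l := n) (R := R))
  rw [Matrix.det_mul, Matrix.det_mul, hJ, Matrix.det_fromBlocks_zero₂₁,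
    Matrix.det_fromBlocks_zero₁₂, Matrix.det_one, one_mul, one_mul, mul_one, mul_one] at h2
  exact h2

lemma mod0_charpoly {F n : Type*} [Field F] [Fintype n] [DecidableEq n] (γ : F)
    {H Hi M : Matrix n n F} (h2 : Hi * H = 1) :
    (mod0 γ H Hi M).charpoly = ∑ j ∈ Finset.range (Fintype.card n + 1),
      C (M.charpoly.coeff j) * ((X ^ 2 + C γ) ^ j * X ^ (Fintype.card n - j)) := by
  -- conjugate
  have e1 : mod0 γ H Hi M = Matrix.fromBlocks H 0 0 1 *
      (Matrix.fromBlocks 0 (Matrix.scalar n (-γ)) 1 M * Matrix.fromBlocks Hi 0 0 1) := by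
    rw [mod0, Matrix.fromBlocks_multiply, Matrix.fromBlocks_multiply]
    congr 1
    · simp
    · ext i j
      simp [Matrix.mul_diagonal, mul_comm]
    · simp
    · simp
  have e2 : (mod0 γ H Hi M).charpoly =
      (Matrix.fromBlocks 0 (Matrix.scalar n (-γ)) 1 M).charpoly := by
    rw [e1, Matrix.charpoly_mul_comm, Matrix.mul_assoc, Matrix.fromBlocks_multiply]
    simp [h2]
  rw [e2, Matrix.charpoly, Matrix.charmatrix_fromBlocks]
  have e3 : (Matrix.fromBlocks (charmatrix (0 : Matrix n n F))
      (-(Matrix.scalar n (-γ) : Matrix n n F).map (C : F →+* F[X]))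
      (-(1 : Matrix n n F).map (C : F →+* F[X])) (charmatrix M) : Matrix (n ⊕ n) (n ⊕ n) F[X]) =
      Matrix.fromBlocks (Matrix.scalar n (X : F[X])) (Matrix.scalar n (C γ : F[X])) (-1)
        (charmatrix M) := by
    congr 1
    · ext i j
      simp [charmatrix]
    · ext i j
      by_cases h : i = j
      · subst h; simp
      · simp [h]
    · rw [Matrix.map_one C (map_zero C) (map_one C)]
  rw [e3, det_block]
  -- pass to the fraction field
  have hinj : Function.Injective (algebraMap F[X] (FractionRing F[X])) :=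
    IsFractionRing.injective _ _
  apply hinj
  have e4 : (algebraMap F[X] (FractionRing F[X]))
      (Matrix.scalar n (C γ : F[X]) + (X : F[X]) • charmatrix M).det =
      (Matrix.scalar n (algebraMap F[X] (FractionRing F[X]) (X ^ 2 + C γ)) -
        (algebraMap F[X] (FractionRing F[X]) X) •
          M.map ((algebraMap F[X] (FractionRing F[X])).comp (C : F →+* F[X]))).det := by
    rw [RingHom.map_det]
    congr 1
    obtain ⟨a, ha⟩ : ∃ a, a = algebraMap F[X] (FractionRing F[X]) (X ^ 2 + C γ) := ⟨_, rfl⟩
    rw [← ha]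
    refine Matrix.ext fun i j => ?_
    by_cases h : i = j
    · subst h
      simp only [RingHom.mapMatrix_apply, Matrix.map_apply, Matrix.add_apply, Matrix.sub_apply,
        Matrix.smul_apply, Matrix.scalar_apply, Matrix.diagonal_apply_eq, smul_eq_mul,
        RingHom.comp_apply, charmatrix_apply_eq, map_add, map_mul, map_sub]
      rw [ha, map_add, map_pow]
      ring
    · simp only [RingHom.mapMatrix_apply, Matrix.map_apply, Matrix.add_apply, Matrix.sub_apply,
        Matrix.smul_apply, Matrix.scalar_apply, Matrix.diagonal_apply_ne _ h, smul_eq_mul,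
        RingHom.comp_apply, charmatrix_apply_ne _ _ _ h, map_add, map_mul, map_neg, map_zero]
      ring
  rw [e4, det_hom _ M _ _ (by
    intro h
    rw [← map_zero (algebraMap F[X] (FractionRing F[X]))] at h
    exact X_ne_zero (hinj h)), map_sum]
  refine Finset.sum_congr rfl fun j _ => ?_
  simp only [RingHom.comp_apply, map_mul, map_pow]

end Pool.Agent.W337.MF
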